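import Pool.Agent.Helper77.PPB.Goals
import Pool.Agent.Helper94.PPO.OGOL

/-! Packet PPB-B_CO0 (project PPB, MP_fc6b1e_nt): the core, `χ₀ = 1`. -/

set_option autoImplicit false

namespace Pool.Agent.Helper30.PPB

open NumberField Polynomial Module IsDedekindDomain TensorProduct Pool.Agent.Helper51.SigLeo
open Pool.Agent.Helper51.RP Pool.Agent.Helper77.PPO Pool.Agent.Helper77.PPB
open Pool.Agent.Helper11.LE (HD Cyc)
open Pool.Agent.Helper42.RD (TSet)
open Pool.Agent.Helper79.RD (eq_on_sup mem_of_fixed map_sup_mem map_mem_normal)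
open Pool.Agent.Helper13.RL

section deg

variable {K Ω : Type} [Field K] [Field Ω] [Algebra K Ω]

/-- the degree does not change under `extendScalars` -/
theorem finrank_ext {L E : IntermediateField K Ω} (h : L ≤ E) :
    finrank K (IntermediateField.extendScalars h) = finrank K E := by
  let e : (IntermediateField.extendScalars h) ≃ₗ[K] E :=
    { toFun := fun x => ⟨x.1, x.2⟩
      invFun := fun x => ⟨x.1, x.2⟩
      map_add' := fun _ _ => rfl
      map_smul' := fun _ _ => rfl
      left_inv := fun _ => rfl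
      right_inv := fun _ => rfl }
  exact e.finrank_eq

/-- degrees of the field `M₂ F` -/
theorem deg_sup {p : ℕ} (hp : p.Prime) {L F M₂ : IntermediateField K Ω} [FiniteDimensional K L]
    [FiniteDimensional K F] [FiniteDimensional K M₂] (hLF : L ≤ F) (hLM : L ≤ M₂) {n c : ℕ}
    (hL : finrank K L = p ^ n) (hF : finrank K F = p ^ (n + 1))
    (hM : finrank K M₂ = p ^ n * c) (hc : c.Coprime p) (hc0 : 0 < c)
    [FiniteDimensional K (M₂ ⊔ F : IntermediateField K Ω)] (d : ℕ)
    (hd : finrank K (M₂ ⊔ F : IntermediateField K Ω) = finrank K M₂ * d) : d = p := by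
  have hpn : 0 < p ^ n := pow_pos hp.pos n
  set A := IntermediateField.extendScalars hLM with hA
  set B := IntermediateField.extendScalars hLF with hB
  have h1 : A ⊔ B = IntermediateField.extendScalars (hLM.trans le_sup_left : L ≤ M₂ ⊔ F) := by
    rw [hA, hB]
    exact IntermediateField.extendScalars_sup hLM hLF
  have h2 := IntermediateField.finrank_sup_le A B
  have h3 : finrank K L * finrank L A = finrank K M₂ := by
    rw [Module.finrank_mul_finrank K L A, hA, finrank_ext hLM]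
  have h4 : finrank K L * finrank L B = finrank K F := by
    rw [Module.finrank_mul_finrank K L B, hB, finrank_ext hLF]
  have h5 : finrank K L * finrank L (A ⊔ B : IntermediateField L Ω) =
      finrank K (M₂ ⊔ F : IntermediateField K Ω) := by
    rw [Module.finrank_mul_finrank K L (A ⊔ B : IntermediateField L Ω), h1, finrank_ext]
  rw [hL, hM] at h3
  rw [hL, hF, pow_succ] at h4
  rw [hL, hd, hM] at h5
  have h6 : finrank L A = c := Nat.eq_of_mul_eq_mul_left hpn h3
  have h7 : finrank L B = p := Nat.eq_of_mul_eq_mul_left hpn h4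
  rw [h6, h7] at h2
  have h8 : finrank L (A ⊔ B : IntermediateField L Ω) = c * d := by
    apply Nat.eq_of_mul_eq_mul_left hpn
    rw [h5, mul_assoc]
  rw [h8] at h2
  have h9 : d ≤ p := Nat.le_of_mul_le_mul_left h2 hc0
  -- divisibility
  have h10 : finrank K F ∣ finrank K (M₂ ⊔ F : IntermediateField K Ω) := by
    let _ : Algebra F (M₂ ⊔ F : IntermediateField K Ω) :=
      (IntermediateField.inclusion (le_sup_right : F ≤ M₂ ⊔ F)).toRingHom.toAlgebra
    have t : IsScalarTower K F (M₂ ⊔ F : IntermediateField K Ω) :=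
      IsScalarTower.of_algebraMap_eq fun x => rfl
    exact ⟨_, (Module.finrank_mul_finrank K F (M₂ ⊔ F : IntermediateField K Ω)).symm⟩
  rw [hF, hd, hM, pow_succ, mul_assoc] at h10
  have h11 : p ∣ c * d := Nat.dvd_of_mul_dvd_mul_left hpn h10
  have h12 : p ∣ d := (hc.symm.dvd_of_dvd_mul_left h11)
  have h13 : 0 < finrank K (M₂ ⊔ F : IntermediateField K Ω) := finrank_pos
  have hd0 : 0 < d := by
    rw [hd] at h13
    exact Nat.pos_of_mul_pos_left h13
  exact le_antisymm h9 (Nat.le_of_dvd hd0 h12)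

end deg

theorem b_co0 : B_CO0 := by
  intro p hpf K _ _ ιinf ιp Lg S hcl n L F M₂ _ _ hgL hgF _ cLM hLF hdL hdF ε a hcyc hom ha hadm
    s hs hsM hgen hsel Hf _ _ χ η hχ hη hchar
  have hp := hpf.out
  have hε := hcyc.prim
  have hF0 : 0 < finrank K F := by rw [hdF]; exact pow_pos hp.pos _
  have hfF : FiniteDimensional K F := FiniteDimensional.of_finrank_pos hF0
  have hL0 : 0 < finrank K L := by rw [hdL]; exact pow_pos hp.pos n
  have hfL : FiniteDimensional K L := FiniteDimensional.of_finrank_pos hL0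
  have hfM : FiniteDimensional K M₂ := FiniteDimensional.right ℚ K M₂
  have hnF : Normal K F := inferInstance
  have hnΩ : Normal K (AlgebraicClosure K) := inferInstance
  have hgΩ : IsGalois K (AlgebraicClosure K) := inferInstance
  have hLM : L ≤ M₂ := fun x hx => by
    have h1 : ((algebraMap L M₂ ⟨x, hx⟩ : M₂) : AlgebraicClosure K) = x := cLM ⟨x, hx⟩
    have h2 : ((algebraMap L M₂ ⟨x, hx⟩ : M₂) : AlgebraicClosure K) ∈ M₂ :=
      (algebraMap L M₂ ⟨x, hx⟩).2
    rwa [h1] at h2
  have tKLM : IsScalarTower K L M₂ := IsScalarTower.of_algebraMap_eq fun x =>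
    Subtype.ext (cLM (algebraMap K L x)).symm
  have hcop : (finrank L M₂).Coprime p := (Pool.Agent.Helper90.LE.l_cyc p L M₂ ε hcyc).2.1
  have hfLM : FiniteDimensional L M₂ := FiniteDimensional.right K L M₂
  have hdM : finrank K M₂ = p ^ n * finrank L M₂ := by
    rw [← Module.finrank_mul_finrank K L M₂, hdL]
  obtain ⟨H₁, hH₁⟩ : ∃ F' : IntermediateField K (AlgebraicClosure K), F' = M₂ ⊔ F := ⟨_, rfl⟩
  have hMH₁ : M₂ ≤ H₁ := by rw [hH₁]; exact le_sup_left
  have hFH₁ : F ≤ H₁ := by rw [hH₁]; exact le_sup_right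
  have hfH₁ : FiniteDimensional K H₁ := by rw [hH₁]; infer_instance
  have hnfF : NumberField F := NumberField.of_module_finite K F
  have hnfH₁ : NumberField H₁ := NumberField.of_module_finite K H₁
  -- the element s
  have hsH₁ : s ∈ H₁ := by
    rw [hH₁]
    exact mem_of_fixed fun g hg =>
      hgen g (fun y hy => hg y ((le_sup_right : F ≤ M₂ ⊔ F) hy))
        (fun y hy => hg y ((le_sup_left : M₂ ≤ M₂ ⊔ F) hy))
  -- algebras
  let _ : Algebra L F := (IntermediateField.inclusion hLF).toRingHom.toAlgebra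
  let _ : Algebra M₂ H₁ := (IntermediateField.inclusion hMH₁).toRingHom.toAlgebra
  let _ : Algebra F H₁ := (IntermediateField.inclusion hFH₁).toRingHom.toAlgebra
  have cLF : ∀ x : L, ((algebraMap L F x : F) : AlgebraicClosure K) = x := fun _ => rfl
  have tKLF : IsScalarTower K L F := IsScalarTower.of_algebraMap_eq fun x => rfl
  have tKMH₁ : IsScalarTower K M₂ H₁ := IsScalarTower.of_algebraMap_eq fun x => rfl
  have hfLF : FiniteDimensional L F := FiniteDimensional.right K L F
  -- degrees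
  have hdLF : finrank L F = p := finrank_rel hdL (pow_pos hp.pos _) hdF (by rw [pow_succ])
  have hdM₂H₁ : finrank M₂ H₁ = p := by
    have h1 := Module.finrank_mul_finrank K M₂ H₁
    have h2 : finrank K (M₂ ⊔ F : IntermediateField K (AlgebraicClosure K)) =
        finrank K M₂ * finrank M₂ H₁ := by
      rw [h1, hH₁]
    exact deg_sup hp hLF hLM hdL hdF hdM hcop finrank_pos _ h2
  have hgLF : IsGalois L F := IsGalois.tower_top_of_isGalois K L F
  -- automorphisms
  have haM : (a : M₂) ≠ 0 := RingOfIntegers.coe_ne_zero_iff.2 ha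
  have haΩ : ((a : M₂) : AlgebraicClosure K) ≠ 0 := fun h => haM (Subtype.ext h)
  have hεΩ : IsPrimitiveRoot ((ε : M₂) : AlgebraicClosure K) p :=
    hε.map_of_injective (f := algebraMap M₂ (AlgebraicClosure K)) (RingHom.injective _)
  obtain ⟨gK, hgM, hgs⟩ := exists_gK (K := K) hp hεΩ ε.2 (a : M₂).2 haΩ hs hsM
  have hgL' : ∀ x ∈ L, gK x = x := fun x hx => hgM x (hLM hx)
  have hgM' : ∀ x ∈ M₂, gK.symm x = x := fun x hx => by
    rw [AlgEquiv.symm_apply_eq]; exact (hgM x hx).symm
  have st1 : ∀ x ∈ H₁, gK x ∈ H₁ := by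
    rw [hH₁]; exact map_sup_mem gK fun x hx => by rw [hgM x hx]; exact hx
  have st2 : ∀ x ∈ H₁, gK.symm x ∈ H₁ := by
    rw [hH₁]; exact map_sup_mem gK.symm fun x hx => by rw [hgM' x hx]; exact hx
  have st3 : ∀ (g : AlgebraicClosure K ≃ₐ[K] AlgebraicClosure K), ∀ x ∈ F, g x ∈ F :=
    fun g x hx => map_mem_normal g hx
  obtain ⟨γ, hγ⟩ : ∃ γ : F ≃ₐ[L] F, γ = resL cLF gK (st3 gK) (st3 gK.symm) hgL' := ⟨_, rfl⟩
  obtain ⟨γ₁, hγ₁⟩ : ∃ γ₁ : H₁ ≃ₐ[M₂] H₁,
    γ₁ = resL (fun x => rfl) gK st1 st2 hgM := ⟨_, rfl⟩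
  have cγ : ∀ x : F, ((γ x : F) : AlgebraicClosure K) = gK x := fun x => by rw [hγ]; rfl
  have cγ₁ : ∀ x : H₁, ((γ₁ x : H₁) : AlgebraicClosure K) = gK x := fun x => by rw [hγ₁]; rfl
  have pγ : ∀ (i : ℕ) (x : F), (((γ ^ i) x : F) : AlgebraicClosure K) = (gK ^ i) x :=
    fun i x => by rw [hγ, resL_pow]
  have hgF1 : ¬ ∀ y ∈ F, gK y = y := by
    intro e1
    have e3 := hgen gK e1 hgM
    rw [hgs] at e3
    have hs0 : s ≠ 0 := by
      intro h0
      rw [h0, zero_pow hp.ne_zero] at hs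
      exact haΩ hs.symm
    have e4 : ((ε : M₂) : AlgebraicClosure K) = 1 := by
      have : (((ε : M₂) : AlgebraicClosure K) - 1) * s = 0 := by rw [sub_mul, e3, one_mul, sub_self]
      rcases mul_eq_zero.1 this with h' | h'
      · exact sub_eq_zero.1 h'
      · exact absurd h' hs0
    exact hεΩ.ne_one hp.one_lt e4
  have hcard : Nat.card (F ≃ₐ[L] F) = p := by
    rw [IsGalois.card_aut_eq_finrank, hdLF]
  have hfin : Finite (F ≃ₐ[L] F) := Nat.finite_of_card_ne_zero (by rw [hcard]; exact hp.ne_zero)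
  have hγp : γ ^ p = 1 := by rw [← hcard]; exact pow_card_eq_one'
  have hγ1 : γ ≠ 1 := by
    intro h
    apply hgF1
    intro y hy
    have e2 := AlgEquiv.congr_fun h ⟨y, hy⟩
    have e3 := cγ ⟨y, hy⟩
    rw [e2] at e3
    exact e3.symm
  have hγo : orderOf γ = p := orderOf_eq_prime hγp hγ1
  have hgFp : ∀ y ∈ F, (gK ^ p) y = y := by
    intro y hy
    have e1 := pγ p ⟨y, hy⟩
    rw [hγp] at e1
    exact e1.symm
  -- the data
  have hclL : PlaceClosed (above (TSet ιinf ιp S) : Set (L →+* ℂ_[p])) := by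
    intro σ τ hστ
    exact hcl _ _ fun x => hστ (algebraMap K L x)
  have hHD : HD p L F M₂ H₁ γ γ₁ ε a ⟨s, hsH₁⟩ :=
    { degH := hdLF
      degH₁ := hdM₂H₁
      compat := fun x => Subtype.ext (cLM x)
      cop := hcop
      gal := hcyc.gal
      prim := hε
      ne := ha
      adm := hadm
      pow := Subtype.ext hs
      γs := by
        apply Subtype.ext
        rw [cγ₁]
        exact hgs
      ext := fun y => by
        apply Subtype.ext
        rw [cγ₁]
        exact (cγ y).symm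
      γo := hγo }
  have hne : Nonempty (AlgebraicClosure ℚ →+* ℂ_[p]) :=
    Pool.Agent.Helper50.RS.nonempty_hom ℚ ℂ_[p]
  -- the characters
  have hHf : Hf ≤ F := by
    intro y hy
    apply mem_of_fixed
    intro g hg
    have e1 : χ (AlgEquiv.restrictNormalHom Hf g) = 1 := by
      rw [hchar g, res_one_iff.2 hg, map_one]
    have e2 : AlgEquiv.restrictNormalHom Hf g = 1 := hχ (by rw [e1, map_one])
    exact res_one_iff.1 e2 y hy
  have hηp : (η (AlgEquiv.restrictNormalHom F gK)) ^ p = 1 := by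
    rw [← map_pow, ← map_pow, res_one_iff.2 hgFp, map_one]
  have hη1 : η (AlgEquiv.restrictNormalHom F gK) ≠ 1 := by
    intro h1
    obtain ⟨g, hg1, hg2⟩ := hη
    apply hg2
    let g' : F ≃ₐ[L] F := AlgEquiv.ofRingEquiv (f := (g : F ≃+* F)) fun x => hg1 _ x.2
    obtain ⟨i, hi⟩ : ∃ i : ℕ, γ ^ i = g' := by
      have h2 : g' ∈ Submonoid.powers γ := mem_powers_of_prime_card hcard hγ1
      exact h2
    have h3 : g = (AlgEquiv.restrictNormalHom F gK) ^ i := by
      rw [← map_pow]
      ext x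
      have h4 := AlgEquiv.congr_fun hi x
      have h5 := pγ i x
      rw [h4] at h5
      have h6 := AlgEquiv.restrictNormalHom_apply F (gK ^ i) x
      exact h5.trans h6.symm
    rw [h3, map_pow, h1, one_pow]
  have hφp : IsPrimitiveRoot ((η (AlgEquiv.restrictNormalHom F gK) : ℂ_[p]ˣ) : ℂ_[p]) p := by
    have e1 : orderOf (η (AlgEquiv.restrictNormalHom F gK)) = p := orderOf_eq_prime hηp hη1
    have e2 : orderOf ((η (AlgEquiv.restrictNormalHom F gK) : ℂ_[p]ˣ) : ℂ_[p]) = p := by
      rw [orderOf_units, e1]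
    have e3 := IsPrimitiveRoot.orderOf ((η (AlgEquiv.restrictNormalHom F gK) : ℂ_[p]ˣ) : ℂ_[p])
    rwa [e2] at e3
  -- the conclusion
  obtain ⟨i, hi⟩ : ∃ i : Hf →+* F, ∀ x : Hf, ((i x : F) : AlgebraicClosure K) = x :=
    ⟨(IntermediateField.inclusion hHf).toRingHom, fun x => rfl⟩
  have heq : ∀ (g : AlgebraicClosure K ≃ₐ[K] AlgebraicClosure K) (g' : F ≃ₐ[L] F),
      (∀ x : F, ((g' x : F) : AlgebraicClosure K) = g x) → ∀ x : Hf,
      g' (i x) = i (AlgEquiv.restrictNormalHom Hf g x) := by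
    intro g g' hg x
    apply Subtype.ext
    rw [hg, hi, hi, AlgEquiv.restrictNormalHom_apply]
  have hnfHf : NumberField Hf := NumberField.of_module_finite K Hf
  intro x hx
  apply bc_inj (ups i) (ups_inj i)
  rw [map_zero]
  refine d_p1 p ℂ_[p] hne Lg L F M₂ H₁ γ γ₁ ε a ⟨s, hsH₁⟩ hHD hcyc hom
    (above (TSet ιinf ιp S) : Set (L →+* ℂ_[p])) hclL hsel _ hφp _ ?_ ?_
  · rw [ups_equiv i (AlgEquiv.restrictNormalHom Hf gK) γ (heq gK γ cγ),
      Pool.Agent.Helper50.RS.eig_eChi, map_smul, hchar]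
  · intro τ' hτ'
    rw [log_ups]
    apply hx
    obtain ⟨σ, hσ⟩ := exists_lift_embedding ιp (τ'.comp i)
    obtain ⟨σ₀, g1, g2⟩ := hτ'
    refine ⟨σ, ?_, ?_⟩
    · have g3 : σ.comp (algebraMap K Hf) = σ₀ := by
        apply Pool.Agent.Helper50.RS.comp_inj ιp
        show ιp.comp (σ.comp (algebraMap K _)) = ιp.comp σ₀
        rw [← g2, ← RingHom.comp_assoc, hσ]
        ext c
        exact congrArg τ' (Subtype.ext (hi _))
      rw [g3]
      exact g1
    · rw [hσ]

end Pool.Agent.Helper30.PPB
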